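import Pool.Agent.R323.SH.L

/-!
# MP_798d7d_nt: curves of large rank with small generators

For every `ε > 0` there are `r` and `δ > 0` such that the number of the integer pairs `(A, B)` with
`max (4 |A|³, 27 B²) ≤ H`, `4 A³ + 27 B² ≠ 0`, for which the points of `y² = x³ + A x + B` whose
`x`-coordinate has numerator and denominator at most `H ^ δ` generate a group of rank at least
`r`, is `O(H ^ ε)`.
-/

set_option autoImplicit false

namespace Pool.Agent.Results.MP_798d7d_nt.LargeRankSmallGenerators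

theorem result (ε : ℝ) (hε : 0 < ε) : ∃ (r : ℕ) (δ C : ℝ), 0 < δ ∧ ∀ H : ℝ, 1 ≤ H →
    ({p : ℤ × ℤ |
        4 * p.1 ^ 3 + 27 * p.2 ^ 2 ≠ 0 ∧
        (((max (4 * |p.1| ^ 3) (27 * p.2 ^ 2) : ℤ) : ℝ) ≤ H) ∧
        (r : Cardinal) ≤ Module.rank ℤ (Submodule.span ℤ
          {P : (WeierstrassCurve.toAffine
            (⟨0, 0, 0, (p.1 : ℚ), (p.2 : ℚ)⟩ : WeierstrassCurve ℚ)).Point |
            ∃ x y h, P = .some x y h ∧ (|x.num| : ℝ) ≤ H ^ δ ∧ (x.den : ℝ) ≤ H ^ δ})}).Finite ∧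
    ((Set.ncard {p : ℤ × ℤ |
        4 * p.1 ^ 3 + 27 * p.2 ^ 2 ≠ 0 ∧
        (((max (4 * |p.1| ^ 3) (27 * p.2 ^ 2) : ℤ) : ℝ) ≤ H) ∧
        (r : Cardinal) ≤ Module.rank ℤ (Submodule.span ℤ
          {P : (WeierstrassCurve.toAffine
            (⟨0, 0, 0, (p.1 : ℚ), (p.2 : ℚ)⟩ : WeierstrassCurve ℚ)).Point |
            ∃ x y h, P = .some x y h ∧ (|x.num| : ℝ) ≤ H ^ δ ∧ (x.den : ℝ) ≤ H ^ δ})} : ℕ) : ℝ)
      ≤ C * H ^ ε :=
  Pool.Agent.R323.SH.count_rank ε hε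

end Pool.Agent.Results.MP_798d7d_nt.LargeRankSmallGenerators
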